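import Pool.Agent.H820.TC.Stm

/-!
# TC E2: forms which vanish on the kernel of a functional, second case
-/

set_option autoImplicit false

namespace Pool.Agent.H47.TC

open Module Pool.Agent.H820.TC

section
variable {X : Type} [AddCommGroup X] [Module ℝ X]

theorem e2_span_lt [FiniteDimensional ℝ X] (s : Finset X) (hs : s.card < finrank ℝ X) :
    (Submodule.span ℝ (s : Set X)) < ⊤ := by
  rw [lt_top_iff_ne_top]
  intro h
  have h1 := finrank_span_finset_le_card (R := ℝ) s
  rw [Set.finrank, h, finrank_top] at h1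
  omega

/-- the functionals which vanish at `η` -/
def PP (η : X) : Submodule ℝ (X →ₗ[ℝ] ℝ) where
  carrier := {e | e η = 0}
  add_mem' := by
    intro a b ha hb
    show (a + b) η = 0
    rw [LinearMap.add_apply, show a η = 0 from ha, show b η = 0 from hb, add_zero]
  zero_mem' := rfl
  smul_mem' := by
    intro c a ha
    show (c • a) η = 0
    rw [LinearMap.smul_apply, show a η = 0 from ha, smul_zero]

theorem mem_PP {η : X} {e : X →ₗ[ℝ] ℝ} : e ∈ PP η ↔ e η = 0 := Iff.rfl

theorem finrank_PP [FiniteDimensional ℝ X] (η : X) : finrank ℝ X ≤ finrank ℝ (PP η) + 1 := by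
  have h1 : PP η = LinearMap.ker (LinearMap.applyₗ η : (X →ₗ[ℝ] ℝ) →ₗ[ℝ] ℝ) := by
    ext e
    rw [mem_PP, LinearMap.mem_ker]
    rfl
  have h2 := LinearMap.finrank_range_add_finrank_ker
    (LinearMap.applyₗ η : (X →ₗ[ℝ] ℝ) →ₗ[ℝ] ℝ)
  have h3 : finrank ℝ (LinearMap.range (LinearMap.applyₗ η : (X →ₗ[ℝ] ℝ) →ₗ[ℝ] ℝ)) ≤ 1 :=
    (Submodule.finrank_le _).trans (by rw [finrank_self])
  have h4 : finrank ℝ (X →ₗ[ℝ] ℝ) = finrank ℝ X := Subspace.dual_finrank_eq
  rw [← h1, h4] at h2
  omega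

/-- the map `e ↦ e ∧ b` -/
noncomputable def Ph (η : X) (D : Submodule ℝ (BF X)) :
    PP η →ₗ[ℝ] D →ₗ[ℝ] (X → X → X → ℝ) :=
  LinearMap.mk₂ ℝ (fun (e : PP η) (b : D) => fun x y z =>
    e.1 x * b.1 y z + e.1 y * b.1 z x + e.1 z * b.1 x y)
    (by
      intro e e' b
      funext x y z
      simp only [Submodule.coe_add, LinearMap.add_apply, Pi.add_apply]
      ring)
    (by
      intro c e b
      funext x y z
      simp only [Submodule.coe_smul, LinearMap.smul_apply, Pi.smul_apply, smul_eq_mul]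
      ring)
    (by
      intro e b b'
      funext x y z
      simp only [Submodule.coe_add, LinearMap.add_apply, Pi.add_apply]
      ring)
    (by
      intro c e b
      funext x y z
      simp only [Submodule.coe_smul, LinearMap.smul_apply, Pi.smul_apply, smul_eq_mul]
      ring)

theorem Ph_apply (η : X) (D : Submodule ℝ (BF X)) (e : PP η) (b : D) (x y z : X) :
    Ph η D e b x y z = e.1 x * b.1 y z + e.1 y * b.1 z x + e.1 z * b.1 x y := rfl

theorem alt_swap {b : BF X} (h : ∀ x, b x x = 0) (x y : X) : b x y = - b y x := by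
  have h1 := h (x + y)
  simp only [map_add, LinearMap.add_apply, h] at h1
  linarith

/-- a form which vanishes on the kernel of a functional -/
theorem form_eq {b : BF X} (h : ∀ x, b x x = 0) {e : X →ₗ[ℝ] ℝ} {ξ : X} (hξ : e ξ = 1)
    (hb : ∀ x y, e x = 0 → e y = 0 → b x y = 0) (x y : X) :
    b x y = e x * b ξ y - e y * b ξ x := by
  have h1 := hb (x - e x • ξ) (y - e y • ξ)
    (by rw [map_sub, map_smul, hξ, smul_eq_mul, mul_one, sub_self])
    (by rw [map_sub, map_smul, hξ, smul_eq_mul, mul_one, sub_self])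
  simp only [map_sub, map_smul, LinearMap.sub_apply, LinearMap.smul_apply, smul_eq_mul, h ξ,
    mul_zero, sub_zero] at h1
  rw [alt_swap h x ξ] at h1
  linarith

/-- the restriction of forms to the kernel of `e` -/
noncomputable def res (D : Submodule ℝ (BF X)) (e : X →ₗ[ℝ] ℝ) :
    D →ₗ[ℝ] (LinearMap.ker e → LinearMap.ker e → ℝ) where
  toFun b := fun x y => b.1 x.1 y.1
  map_add' b b' := by
    funext x y
    rfl
  map_smul' c b := by
    funext x y
    rfl

/-- the map `f ↦ - (f ∧ v)` on the kernel of `e` -/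
noncomputable def Ps (η : X) (e v : X →ₗ[ℝ] ℝ) :
    PP η →ₗ[ℝ] (LinearMap.ker e → LinearMap.ker e → ℝ) where
  toFun f := fun x y => f.1 y.1 * v x.1 - f.1 x.1 * v y.1
  map_add' f f' := by
    funext x y
    simp only [Submodule.coe_add, LinearMap.add_apply, Pi.add_apply]
    ring
  map_smul' c f := by
    funext x y
    simp only [Submodule.coe_smul, LinearMap.smul_apply, Pi.smul_apply, smul_eq_mul,
      RingHom.id_apply]
    ring

/-- two values of a functional -/
noncomputable def ev2 (η : X) (e v : X →ₗ[ℝ] ℝ) (k₀ ξ : X) :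
    LinearMap.ker (Ps η e v) →ₗ[ℝ] (Fin 2 → ℝ) where
  toFun f := ![f.1.1 k₀, f.1.1 ξ]
  map_add' f f' := by
    funext i
    fin_cases i <;> rfl
  map_smul' c f := by
    funext i
    fin_cases i <;> rfl

theorem ker_Ps [FiniteDimensional ℝ X] {η : X} {e v : X →ₗ[ℝ] ℝ} {k₀ ξ : X} (hξ : e ξ = 1)
    (hvξ : v ξ = 0) (hk : e k₀ = 0) (hv : v k₀ ≠ 0) :
    finrank ℝ (LinearMap.ker (Ps η e v)) ≤ 2 := by
  have h1 : Function.Injective (ev2 η e v k₀ ξ) := by
    intro f f' hff
    have hf0 : f.1.1 k₀ = f'.1.1 k₀ := congrFun hff 0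
    have hf1 : f.1.1 ξ = f'.1.1 ξ := congrFun hff 1
    have h2 : ∀ f : LinearMap.ker (Ps η e v), ∀ y, e y = 0 →
        f.1.1 y * v k₀ - f.1.1 k₀ * v y = 0 := by
      intro f y hy
      have h3 : Ps η e v f.1 = 0 := f.2
      exact congrFun (congrFun h3 ⟨k₀, hk⟩) ⟨y, hy⟩
    have h3 : ∀ y, e y = 0 → f.1.1 y = f'.1.1 y := by
      intro y hy
      have h4 := h2 f y hy
      have h5 := h2 f' y hy
      rw [hf0] at h4
      have h6 : f.1.1 y * v k₀ = f'.1.1 y * v k₀ := by linarith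
      exact mul_right_cancel₀ hv h6
    apply Subtype.ext
    apply Subtype.ext
    ext x
    have h4 := h3 (x - e x • ξ) (by rw [map_sub, map_smul, hξ, smul_eq_mul, mul_one, sub_self])
    rw [map_sub, map_smul, map_sub, map_smul, hf1] at h4
    exact sub_left_injective h4
  have h2 := LinearMap.finrank_le_finrank_of_injective h1
  rw [finrank_fin_fun] at h2
  exact h2

end

/-- **E2** -/
theorem t_e2 : S_MR → S_e2 := by
  intro hMR m X _ _ _ hX hm D hD hdim η hη hDη
  by_cases hD0 : ∀ b ∈ D, b = 0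
  · obtain ⟨f, hf0, hf⟩ := Submodule.exists_le_ker_of_lt_top _
      (e2_span_lt ({η} : Finset X) (by rw [Finset.card_singleton]; omega))
    refine ⟨f, hf0, ?_, fun b hb _ => hD0 b hb⟩
    exact hf (Submodule.subset_span (by simp))
  simp only [not_forall] at hD0
  obtain ⟨b₁, hb₁, hb₁0⟩ := hD0
  letI instD : AddCommGroup D := Module.addCommMonoidToAddCommGroup ℝ
  letI instP : AddCommGroup (PP η) := Module.addCommMonoidToAddCommGroup ℝ
  obtain ⟨p₀, hp1, hp2⟩ := hMR (PP η) D (X → X → X → ℝ) (Ph η D)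
  -- there is a large rank
  have hq : ∃ q : PP η, Ph η D q ⟨b₁, hb₁⟩ ≠ 0 := by
    have h1 : ∃ x y, b₁ x y ≠ 0 := by
      by_contra hc
      simp only [not_exists, not_not] at hc
      apply hb₁0
      ext x y
      exact hc x y
    obtain ⟨x, y, hxy⟩ := h1
    classical
    obtain ⟨f, hf0, hf⟩ := Submodule.exists_le_ker_of_lt_top _
      (e2_span_lt ({η, x, y} : Finset X) (by
        have := Finset.card_le_three (a := η) (b := x) (c := y)
        omega))
    have hfη : f η = 0 := hf (Submodule.subset_span (by simp))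
    have hfx : f x = 0 := hf (Submodule.subset_span (by simp))
    have hfy : f y = 0 := hf (Submodule.subset_span (by simp))
    have h2 : ∃ z, f z ≠ 0 := by
      by_contra hc
      simp only [not_exists, not_not] at hc
      exact hf0 (LinearMap.ext hc)
    obtain ⟨z, hz⟩ := h2
    refine ⟨⟨f, hfη⟩, fun h3 => ?_⟩
    have h4 := congrFun (congrFun (congrFun h3 z) x) y
    rw [Ph_apply] at h4
    simp only [hfx, hfy, zero_mul, add_zero, Pi.zero_apply] at h4
    exact (mul_ne_zero hz hxy) h4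
  have he0 : p₀.1 ≠ 0 := by
    intro h0
    obtain ⟨q, hq⟩ := hq
    have h1 := hp1 q
    have h2 : p₀ = 0 := Subtype.ext h0
    rw [h2, map_zero, LinearMap.range_zero, finrank_bot, Nat.le_zero,
      Submodule.finrank_eq_zero, LinearMap.range_eq_bot] at h1
    apply hq
    rw [h1]
    rfl
  refine ⟨p₀.1, he0, p₀.2, ?_⟩
  intro b hb hbk
  by_contra hb0
  obtain ⟨e, he⟩ : ∃ e : X →ₗ[ℝ] ℝ, e = p₀.1 := ⟨_, rfl⟩
  rw [← he] at he0 hbk
  -- the vector `ξ`
  have h1 : ∃ x, e x ≠ 0 := by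
    by_contra hc
    simp only [not_exists, not_not] at hc
    exact he0 (LinearMap.ext hc)
  obtain ⟨x₀, hx₀⟩ := h1
  obtain ⟨ξ, hξ⟩ : ∃ ξ, e ξ = 1 := ⟨(e x₀)⁻¹ • x₀, by
    rw [map_smul, smul_eq_mul, inv_mul_cancel₀ hx₀]⟩
  have hform := form_eq (hD b hb) hξ hbk
  obtain ⟨v, hv⟩ : ∃ v : X →ₗ[ℝ] ℝ, v = b ξ := ⟨_, rfl⟩
  rw [← hv] at hform
  have hvξ : v ξ = 0 := by
    rw [hv]
    exact hD b hb ξ
  have hv0 : ∃ x, v x ≠ 0 := by
    by_contra hc
    simp only [not_exists, not_not] at hc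
    apply hb0
    ext x y
    rw [hform, hc, hc]
    simp
  obtain ⟨x₁, hx₁⟩ := hv0
  obtain ⟨k₀, hk₀⟩ : ∃ k₀, k₀ = x₁ - e x₁ • ξ := ⟨_, rfl⟩
  have hek : e k₀ = 0 := by
    rw [hk₀, map_sub, map_smul, hξ, smul_eq_mul, mul_one, sub_self]
  have hvk : v k₀ ≠ 0 := by
    rw [hk₀, map_sub, map_smul, hvξ, smul_zero, sub_zero]
    exact hx₁
  -- `Φ e b = 0`
  have hPh0 : Ph η D p₀ ⟨b, hb⟩ = 0 := by
    funext x y z
    rw [Ph_apply, ← he]
    show e x * b y z + e y * b z x + e z * b x y = 0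
    rw [hform y z, hform z x, hform x y]
    ring
  -- the range of `Ps` is contained in the range of `res`
  have hrange : LinearMap.range (Ps η e v) ≤ LinearMap.range (res D e) := by
    rintro _ ⟨f, rfl⟩
    obtain ⟨b', hb'⟩ := hp2 ⟨b, hb⟩ hPh0 f
    refine ⟨b', ?_⟩
    funext x y
    have h2 := congrFun (congrFun (congrFun hb' ξ) x.1) y.1
    rw [Ph_apply, Ph_apply, ← he] at h2
    have hx : e x.1 = 0 := x.2
    have hy : e y.1 = 0 := y.2
    have h3 : b x.1 y.1 = 0 := hbk _ _ hx hy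
    have h4 : b y.1 ξ = - v y.1 := by
      rw [hv]
      exact alt_swap (hD b hb) _ _
    have h5 : b ξ x.1 = v x.1 := by rw [hv]
    simp only [hξ, hx, hy, h3, h4, h5, zero_mul, add_zero, one_mul, mul_zero, zero_add] at h2
    show b'.1 x.1 y.1 = f.1 y.1 * v x.1 - f.1 x.1 * v y.1
    rw [h2]
    ring
  have hle := Submodule.finrank_mono hrange
  have hPs := LinearMap.finrank_range_add_finrank_ker (Ps η e v)
  have hker := ker_Ps (η := η) hξ hvξ hek hvk
  have hres := LinearMap.finrank_range_add_finrank_ker (res D e)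
  have hpos : 0 < finrank ℝ (LinearMap.ker (res D e)) := by
    rw [Module.finrank_pos_iff_exists_ne_zero]
    refine ⟨⟨⟨b, hb⟩, ?_⟩, ?_⟩
    · rw [LinearMap.mem_ker]
      funext x y
      exact hbk _ _ x.2 y.2
    · intro h2
      apply hb0
      exact congrArg (fun z => z.1.1) h2
  have hPP := finrank_PP η
  omega

end Pool.Agent.H47.TC
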